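import Mathlib
import Pool.Agent.R605.HankelHd

open Finset Polynomial

namespace Pool.Agent.Results.MP_ecbd44_co.HankelFull

/-- The polynomials `H_d(n,x)` of the problem: `x^n` for `n < d` and
`x H_d(n-1,x) + (n-1)(n-2)⋯(n-d+1) H_d(n-d,x)` for `n ≥ d` (here `d ≥ 1`). -/
noncomputable def H (d : ℕ) (n : ℕ) : ℤ[X] :=
  if h : n < d ∨ d = 0 then X ^ n
  else X * H d (n - 1) + (∏ k ∈ Finset.Icc 1 (d - 1), ((n : ℤ[X]) - (k : ℤ[X]))) * H d (n - d)
  termination_by n
  decreasing_by all_goals omega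

/-- The Hankel matrix `M_d(n,x) = [H_d(i+j,x)]`, `0 ≤ i,j ≤ n-1`. -/
noncomputable def M (d n : ℕ) : Matrix (Fin n) (Fin n) ℤ[X] :=
  Matrix.of fun i j => H d (i.1 + j.1)

/-- For all `d ≥ 2`, `n ≥ 1` the determinant of `M_d(n,x)` is a constant polynomial, and the
constant is divisible by `∏_{i<n} i!`. -/
theorem result : ∀ d : ℕ, 2 ≤ d → ∀ n : ℕ, 1 ≤ n →
    ∃ D : ℤ, (M d n).det = C D ∧ (∏ i ∈ Finset.range n, (i.factorial : ℤ)) ∣ D := by
  intro d hd n _
  have hlt : ∀ n, n < d → H d n = X ^ n := fun n hn => by rw [H, dif_pos (Or.inl hn)]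
  have hge : ∀ n, d ≤ n → H d n = X * H d (n - 1)
      + (∏ k ∈ Finset.Icc 1 (d - 1), ((n : ℤ[X]) - (k : ℤ[X]))) * H d (n - d) := fun n hn => by
    conv_lhs => rw [H]
    rw [dif_neg (by omega)]
  have h0 : H d 0 = 1 := by rw [hlt 0 (by omega), pow_zero]
  have hrec : ∀ n, H d (n + 1) = X * H d n + (n.descFactorial (d - 1) : ℤ[X]) * H d (n - (d - 1)) := by
    intro n
    rcases Nat.lt_or_ge (n + 1) d with h | h
    · rw [hlt _ h, hlt n (by omega), Nat.descFactorial_eq_zero_iff_lt.mpr (by omega)]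
      simp [pow_succ']
    · rw [hge _ h]
      have e1 : n + 1 - 1 = n := rfl
      have e2 : n + 1 - d = n - (d - 1) := by omega
      rw [e1, e2]
      congr 2
      rw [Nat.descFactorial_eq_prod_range, Nat.cast_prod]
      symm
      refine Finset.prod_bij (fun i _ => i + 1) ?_ ?_ ?_ ?_
      · intro i hi
        rw [Finset.mem_range] at hi
        rw [Finset.mem_Icc]
        omega
      · intro i _ j _ hij
        exact Nat.succ_injective hij
      · intro k hk
        rw [Finset.mem_Icc] at hk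
        exact ⟨k - 1, Finset.mem_range.mpr (by omega), by omega⟩
      · intro i hi
        rw [Finset.mem_range] at hi
        rw [Nat.cast_sub (by omega)]
        push_cast
        ring
  obtain ⟨c, hc⟩ := R605.HankelHd.det_hankel (H d) (d - 1) h0 hrec n
  exact ⟨_, hc, Dvd.intro_left c rfl⟩

end Pool.Agent.Results.MP_ecbd44_co.HankelFull
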